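import Pool.Agent.Helper27.BE.Defs

/-!
BE-11: the runs of `Dset` and their cost.
-/

set_option autoImplicit false

namespace Pool.Agent.Helper27.BE

open Finset

theorem mem_Dset {ε : ℝ} {κ : ℕ} {d : ℕ → ℕ} {C i : ℕ} :
    i ∈ Dset ε κ d C ↔ (1 ≤ i ∧ i ≤ C) ∧ ∃ b, StartOK ε κ d i b := by
  simp [Dset]

theorem start_ok {ε : ℝ} {κ : ℕ} {d : ℕ → ℕ} {C i : ℕ} (hi : i ∈ Dset ε κ d C) :
    StartOK ε κ d i (start ε κ d i) := Nat.sInf_mem (mem_Dset.1 hi).2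

theorem isRun_start {ε : ℝ} {κ : ℕ} {C : ℕ} {d : ℕ → ℕ} :
    ∀ i ∈ Dset ε κ d C, IsRun (Dset ε κ d C) i (i - start ε κ d i) := by
  intro i hi
  obtain ⟨h1, h2, h3, h4⟩ := start_ok hi
  refine ⟨by omega, fun j hij hji => ?_⟩
  rw [mem_Dset] at hi ⊢
  refine ⟨by omega, start ε κ d i, h1, by omega, h3, fun j' h5 h6 => h4 j' h5 (by omega)⟩

/-- separated sets -/
theorem card_le_of_separated (S L : Finset ℕ)
    (h : ∀ s ∈ S, ∀ s' ∈ S, s < s' → ∃ j ∈ L, s ≤ j ∧ j < s') : S.card ≤ L.card + 1 := by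
  rw [← card_range (L.card + 1)]
  apply card_le_card_of_injOn (fun s => (L.filter (· < s)).card)
  · intro s _
    rw [mem_coe, mem_range]
    exact Nat.lt_succ_of_le (card_le_card (filter_subset _ _))
  · have key : ∀ s ∈ S, ∀ s' ∈ S, s < s' →
        (L.filter (· < s)).card < (L.filter (· < s')).card := by
      intro s hs s' hs' hss
      obtain ⟨j, hj, h1, h2⟩ := h s hs s' hs' hss
      apply card_lt_card
      rw [ssubset_iff_of_subset]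
      · exact ⟨j, mem_filter.2 ⟨hj, h2⟩, fun hc => by
          have := (mem_filter.1 hc).2
          omega⟩
      · intro t ht
        rw [mem_filter] at ht ⊢
        exact ⟨ht.1, ht.2.trans hss⟩
    intro s hs s' hs' he
    rcases lt_trichotomy s s' with hlt | heq | hgt
    · exact absurd he (key s hs s' hs' hlt).ne
    · exact heq
    · exact absurd he (key s' hs' s hs hgt).ne'

/-- two different starting levels are separated by a large level -/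
theorem start_separated {ε : ℝ} {κ : ℕ} {C : ℕ} {d : ℕ → ℕ} {i i' : ℕ}
    (hi : i ∈ Dset ε κ d C) (hi' : i' ∈ Dset ε κ d C)
    (h : start ε κ d i < start ε κ d i') :
    ∃ j, 1 ≤ j ∧ start ε κ d i ≤ j ∧ j < start ε κ d i' ∧ κ ^ 5 < d j := by
  obtain ⟨h1, h2, h3, h4⟩ := start_ok hi
  obtain ⟨g1, g2, g3, g4⟩ := start_ok hi'
  by_contra hno
  push Not at hno
  have hok : StartOK ε κ d i' (start ε κ d i) := by
    refine ⟨h1, by omega, h3, fun j hj1 hj2 => ?_⟩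
    by_cases hj : j < start ε κ d i'
    · exact hno j (by omega) hj1 hj
    · exact g4 j (by omega) hj2
  have h5 : start ε κ d i' ≤ start ε κ d i := Nat.sInf_le hok
  omega

theorem cost_Dset {ε : ℝ} (hε : 0 < ε) (hε2 : ε ≤ 1 / 2) (κ₁ : ℕ) : ∃ n₀ : ℕ,
    ∀ (κ n C : ℕ) (d : ℕ → ℕ), 2 / ε ≤ κ → κ ≤ κ₁ → n₀ ≤ n → ∑ i ∈ Icc 1 C, d i ≤ n →
      (∀ i, C < i → d i = 0) → ∀ (ρ r : ℕ → ℕ),
      (∀ i ∈ Dset ε κ d C, ρ i ≤ d i * d (i + 1)) → (∀ i ∈ Dset ε κ d C, ρ i ≤ d i * r i) →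
      ∑ i ∈ Dset ε κ d C, (i - start ε κ d i + 1) * r i ≤ n →
      (∑ i ∈ Dset ε κ d C, (ρ i : ℝ)) ≤ 20 * ε * n := by
  classical
  refine ⟨⌈2 * (κ₁ : ℝ) ^ 3 / ε ^ 2⌉₊, ?_⟩
  intro κ n C d hκ hκ₁ hn hsum hzero ρ r hρ1 hρ2 hrun
  set D := Dset ε κ d C with hD
  have hκ4 : (4 : ℝ) ≤ κ := by
    refine le_trans ?_ hκ
    rw [le_div_iff₀ hε]
    linarith
  have hκ0 : (0 : ℝ) < κ := by linarith
  -- sizes
  have hsize : ∀ i ∈ D, (d i : ℝ) ≤ max (κ : ℝ) (ε * ((i - start ε κ d i : ℕ) : ℝ)) ∧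
      (d (i + 1) : ℝ) ≤ max (κ : ℝ) (ε * ((i - start ε κ d i + 1 : ℕ) : ℝ)) := by
    intro i hi
    obtain ⟨h1, h2, h3, h4⟩ := start_ok hi
    constructor
    · have h5 := h3 (i - start ε κ d i) (fun j hj1 hj2 => h4 j hj1 (by omega))
      rwa [Nat.add_sub_cancel' h2] at h5
    · have h5 := h3 (i - start ε κ d i + 1) (fun j hj1 hj2 => h4 j hj1 (by omega))
      have h6 : start ε κ d i + (i - start ε κ d i + 1) = i + 1 := by omega
      rwa [h6] at h5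
  rw [← sum_filter_add_sum_filter_not D (fun i => (κ : ℝ) ≤ ε * ((i - start ε κ d i : ℕ) : ℝ))]
  -- the long runs
  have hA : ∑ i ∈ D.filter (fun i => (κ : ℝ) ≤ ε * ((i - start ε κ d i : ℕ) : ℝ)), (ρ i : ℝ) ≤
      ε * n := by
    have h1 : ∀ i ∈ D.filter (fun i => (κ : ℝ) ≤ ε * ((i - start ε κ d i : ℕ) : ℝ)),
        (ρ i : ℝ) ≤ ε * (((i - start ε κ d i + 1) * r i : ℕ) : ℝ) := by
      intro i hi
      rw [mem_filter] at hi
      have h2 := (hsize i hi.1).1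
      rw [max_eq_right hi.2] at h2
      have h3 : (ρ i : ℝ) ≤ (d i : ℝ) * r i := by exact_mod_cast hρ2 i hi.1
      have h4 : (0 : ℝ) ≤ r i := Nat.cast_nonneg _
      push_cast
      have h5 : (d i : ℝ) ≤ ε * (((i - start ε κ d i : ℕ) : ℝ) + 1) := by nlinarith
      calc (ρ i : ℝ) ≤ (d i : ℝ) * r i := h3
        _ ≤ ε * (((i - start ε κ d i : ℕ) : ℝ) + 1) * r i := mul_le_mul_of_nonneg_right h5 h4
        _ = _ := by ring
    refine (sum_le_sum h1).trans ?_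
    rw [← mul_sum]
    apply mul_le_mul_of_nonneg_left _ hε.le
    have h2 : ∑ i ∈ D.filter (fun i => (κ : ℝ) ≤ ε * ((i - start ε κ d i : ℕ) : ℝ)),
        (i - start ε κ d i + 1) * r i ≤ n :=
      (sum_le_sum_of_subset (filter_subset _ _)).trans hrun
    exact_mod_cast h2
  -- the short runs
  set DB := D.filter (fun i => ¬ (κ : ℝ) ≤ ε * ((i - start ε κ d i : ℕ) : ℝ)) with hDB
  have hB1 : ∀ i ∈ DB, (ρ i : ℝ) ≤ (κ : ℝ) ^ 2 := by
    intro i hi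
    rw [hDB, mem_filter, not_le] at hi
    obtain ⟨h2, h3⟩ := hsize i hi.1
    rw [max_eq_left hi.2.le] at h2
    have h4 : (d (i + 1) : ℝ) < κ + 1 := by
      refine h3.trans_lt (max_lt (by linarith) ?_)
      push_cast
      linarith [hi.2]
    have h5 : d (i + 1) ≤ κ := by
      have : d (i + 1) < κ + 1 := by exact_mod_cast h4
      omega
    have h6 : d i ≤ κ := by exact_mod_cast h2
    have h7 : ρ i ≤ κ * κ := (hρ1 i hi.1).trans (Nat.mul_le_mul h6 h5)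
    have h8 : (ρ i : ℝ) ≤ (κ : ℝ) * κ := by exact_mod_cast h7
    rw [sq]
    exact h8
  have hB2 : ∑ i ∈ DB, (ρ i : ℝ) ≤ DB.card * (κ : ℝ) ^ 2 := by
    refine (sum_le_sum hB1).trans ?_
    rw [sum_const, nsmul_eq_mul]
  -- the number of short runs
  set L := (Icc 1 C).filter (fun j => κ ^ 5 < d j) with hL
  have hLn : L.card * κ ^ 5 ≤ n := by
    calc L.card * κ ^ 5 = ∑ _j ∈ L, κ ^ 5 := by rw [sum_const, smul_eq_mul]
      _ ≤ ∑ j ∈ L, d j := sum_le_sum fun j hj => (mem_filter.1 hj).2.le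
      _ ≤ ∑ j ∈ Icc 1 C, d j := sum_le_sum_of_subset (filter_subset _ _)
      _ ≤ n := hsum
  have hS : (DB.image (start ε κ d)).card ≤ L.card + 1 := by
    apply card_le_of_separated
    intro s hs s' hs' hss
    rw [mem_image] at hs hs'
    obtain ⟨i, hi, rfl⟩ := hs
    obtain ⟨i', hi', rfl⟩ := hs'
    obtain ⟨j, h1, h2, h3, h4⟩ := start_separated (mem_filter.1 hi).1 (mem_filter.1 hi').1 hss
    refine ⟨j, mem_filter.2 ⟨mem_Icc.2 ⟨h1, ?_⟩, h4⟩, h2, h3⟩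
    by_contra hc
    push Not at hc
    rw [hzero j hc] at h4
    omega
  have hfib : ∀ a ∈ DB.image (start ε κ d),
      (DB.filter (fun i => start ε κ d i = a)).card ≤ ⌊(κ : ℝ) / ε⌋₊ + 1 := by
    intro a _
    have h1 : DB.filter (fun i => start ε κ d i = a) ⊆ Icc a (a + ⌊(κ : ℝ) / ε⌋₊) := by
      intro i hi
      rw [mem_filter, hDB, mem_filter, not_le] at hi
      obtain ⟨⟨hiD, hlt⟩, rfl⟩ := hi
      obtain ⟨g1, g2, -, -⟩ := start_ok hiD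
      rw [mem_Icc]
      refine ⟨g2, ?_⟩
      have h2 : ((i - start ε κ d i : ℕ) : ℝ) ≤ κ / ε := by
        rw [le_div_iff₀ hε]
        linarith
      have h3 := Nat.le_floor h2
      omega
    refine (card_le_card h1).trans ?_
    rw [Nat.card_Icc]
    omega
  have hcard : DB.card ≤ (⌊(κ : ℝ) / ε⌋₊ + 1) * (DB.image (start ε κ d)).card :=
    card_le_mul_card_image _ _ hfib
  have hfl : ((⌊(κ : ℝ) / ε⌋₊ + 1 : ℕ) : ℝ) ≤ 2 * κ / ε := by
    have h1 : (⌊(κ : ℝ) / ε⌋₊ : ℝ) ≤ κ / ε := Nat.floor_le (by positivity)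
    have h2 : (1 : ℝ) ≤ κ / ε := by
      rw [le_div_iff₀ hε]
      linarith
    push_cast
    calc (⌊(κ : ℝ) / ε⌋₊ : ℝ) + 1 ≤ κ / ε + κ / ε := add_le_add h1 h2
      _ = 2 * κ / ε := by ring
  have hLr : (L.card : ℝ) ≤ n / (κ : ℝ) ^ 5 := by
    rw [le_div_iff₀ (by positivity)]
    exact_mod_cast hLn
  have hDBr : (DB.card : ℝ) ≤ 2 * κ / ε * (n / (κ : ℝ) ^ 5 + 1) := by
    have h1 : (DB.card : ℝ) ≤ ((⌊(κ : ℝ) / ε⌋₊ + 1 : ℕ) : ℝ) *
        ((DB.image (start ε κ d)).card : ℝ) := by exact_mod_cast hcard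
    have h2 : ((DB.image (start ε κ d)).card : ℝ) ≤ n / (κ : ℝ) ^ 5 + 1 := by
      have h3 : ((DB.image (start ε κ d)).card : ℝ) ≤ (L.card : ℝ) + 1 := by exact_mod_cast hS
      linarith
    exact h1.trans (mul_le_mul hfl h2 (Nat.cast_nonneg _) (by positivity))
  have hB3 : ∑ i ∈ DB, (ρ i : ℝ) ≤ 2 * κ / ε * (n / (κ : ℝ) ^ 5 + 1) * (κ : ℝ) ^ 2 :=
    hB2.trans (mul_le_mul_of_nonneg_right hDBr (by positivity))
  have hB4 : 2 * κ / ε * (n / (κ : ℝ) ^ 5 + 1) * (κ : ℝ) ^ 2 =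
      2 / (ε * (κ : ℝ) ^ 2) * n + 2 * (κ : ℝ) ^ 3 / ε := by
    field_simp
  have hn0 : (0 : ℝ) ≤ n := Nat.cast_nonneg _
  have hB5 : 2 / (ε * (κ : ℝ) ^ 2) * n ≤ ε * n := by
    apply mul_le_mul_of_nonneg_right _ hn0
    rw [div_le_iff₀ (by positivity)]
    have h1 : 2 ≤ ε * κ := by
      rw [div_le_iff₀ hε] at hκ
      linarith
    nlinarith
  have hB6 : 2 * (κ : ℝ) ^ 3 / ε ≤ ε * n := by
    have h1 : 2 * (κ₁ : ℝ) ^ 3 / ε ^ 2 ≤ n := (Nat.le_ceil _).trans (by exact_mod_cast hn)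
    rw [div_le_iff₀ (by positivity)] at h1
    rw [div_le_iff₀ hε]
    have h2 : (κ : ℝ) ^ 3 ≤ (κ₁ : ℝ) ^ 3 := by
      have h3 : (κ : ℝ) ≤ κ₁ := by exact_mod_cast hκ₁
      gcongr
    nlinarith
  rw [hB4] at hB3
  have hpos : 0 ≤ ε * n := by positivity
  linarith

end Pool.Agent.Helper27.BE
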